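import Pool.Agent.Y924.UF.Stm2

/-! # UF2-DISC: discrete definable sets are finite, from uniform finiteness, with an arbitrary
unary predicate (helper410, adaptation of the proof of helper492 for the valuation ring) -/

set_option autoImplicit false

namespace Pool.Agent.Y410.UF

open Function
open Pool.Agent.Y924.EL
open Pool.Agent.Y924.UF

/-- semantics of renaming -/
theorem sat_ren {K : Type*} [Add K] [Mul K] [One K] (O : Set K) {σ : ℕ → ℕ} (hσ : Injective σ)
    (φ : Fm) : ∀ v : ℕ → K, Sat O (ren σ φ) v ↔ Sat O φ (v ∘ σ) := by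
  induction φ with
  | eq i j => intro v; simp [ren, Sat]
  | one i => intro v; simp [ren, Sat]
  | add i j k => intro v; simp [ren, Sat]
  | mul i j k => intro v; simp [ren, Sat]
  | val i => intro v; simp [ren, Sat]
  | neg φ ih => intro v; simp [ren, Sat, ih]
  | and φ ψ ih1 ih2 => intro v; simp [ren, Sat, ih1, ih2]
  | ex i φ ih =>
    intro v
    simp only [ren, Sat, ih]
    simp only [Function.update_comp_eq_of_injective v hσ]

/-- the renaming which frees the variables `x_1, ..., x_10` -/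
def sg (i : ℕ) : ℕ := if i = 0 then 0 else i + 10

theorem sg_inj : Injective sg := by
  intro i j h
  unfold sg at h
  split_ifs at h <;> omega

section Val

variable {p : ℕ} [Fact p.Prime]

open WithZero LaurentSeries

/-- the valuation -/
noncomputable abbrev w (x : LaurentSeries (ZMod p)) : WithZero (Multiplicative ℤ) := Valued.v x

theorem mem_OO (x : LaurentSeries (ZMod p)) : x ∈ OO p ↔ w x ≤ 1 := by
  unfold w
  rw [LaurentSeries.val_le_one_iff_eq_coe]
  rfl

theorem mem_mul_OO {b : LaurentSeries (ZMod p)} (hb : b ≠ 0) (x : LaurentSeries (ZMod p)) :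
    (∃ z, z ∈ OO p ∧ b * z = x) ↔ w x ≤ w b := by
  have hwb : w b ≠ 0 := (Valuation.ne_zero_iff _).2 hb
  constructor
  · rintro ⟨z, hz, rfl⟩
    rw [mem_OO] at hz
    unfold w at *
    rw [map_mul]
    exact mul_le_of_le_one_right' hz
  · intro h
    refine ⟨x / b, ?_, by field_simp⟩
    rw [mem_OO]
    unfold w at *
    rw [map_div₀]
    exact div_le_one_of_le₀ h zero_le

/-- a set inside `c O` with at most one element in every coset of `b O` is finite -/
theorem finite_of (b c : LaurentSeries (ZMod p)) (hb : b ≠ 0) (hc : c ≠ 0)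
    (S : Set (LaurentSeries (ZMod p))) (h1 : ∀ x ∈ S, w x ≤ w c)
    (h2 : ∀ x ∈ S, ∀ y ∈ S, w (x - y) ≤ w b → x = y) : S.Finite := by
  have hwb : w b ≠ 0 := (Valuation.ne_zero_iff _).2 hb
  have hwc : w c ≠ 0 := (Valuation.ne_zero_iff _).2 hc
  set f : LaurentSeries (ZMod p) → (Finset.Ico (-log (w c)) (-log (w b)) → ZMod p) :=
    fun x n => x.coeff n with hf
  refine Set.Finite.of_finite_image (f := f) (Set.toFinite _) ?_
  intro x hx y hy hxy
  refine h2 x hx y hy ?_
  rw [w, LaurentSeries.valuation_le_iff_coeff_lt_log_eq_zero _ hwb]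
  intro n hn
  rw [HahnSeries.coeff_sub]
  by_cases hn2 : n < -log (w c)
  · rw [(LaurentSeries.valuation_le_iff_coeff_lt_log_eq_zero _ hwc).1 (h1 x hx) n hn2,
      (LaurentSeries.valuation_le_iff_coeff_lt_log_eq_zero _ hwc).1 (h1 y hy) n hn2, sub_zero]
  · have := congrFun hxy ⟨n, Finset.mem_Ico.2 ⟨not_lt.1 hn2, hn⟩⟩
    simp only [hf] at this
    rw [this, sub_self]

end Val

theorem sat_powF {K : Type} [CommRing K] (O : Set K) (k : ℕ) :
    ∀ v : ℕ → K, Sat O (powF k) v ↔ v 4 ^ k = v 5 := by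
  induction k with
  | zero =>
    intro v
    show v 5 = 1 ↔ _
    rw [pow_zero]
    exact eq_comm
  | succ k ih =>
    intro v
    show (∃ a : K, (∃ b : K, update (update v 6 a) 5 b 5 = update (update v 6 a) 5 b 6 ∧
      Sat O (powF k) (update (update v 6 a) 5 b)) ∧
      update v 6 a 6 * update v 6 a 4 = update v 6 a 5) ↔ _
    have e1 : (4 : ℕ) ≠ 5 := by norm_num
    have e2 : (4 : ℕ) ≠ 6 := by norm_num
    have e3 : (6 : ℕ) ≠ 5 := by norm_num
    have e4 : (5 : ℕ) ≠ 6 := by norm_num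
    simp only [ih, update_self, update_of_ne e1, update_of_ne e2, update_of_ne e3,
      update_of_ne e4]
    constructor
    · rintro ⟨a, ⟨b, rfl, hb⟩, ha⟩
      rw [pow_succ, hb, ha]
    · intro hh
      exact ⟨v 4 ^ k, ⟨_, rfl, rfl⟩, by rw [← pow_succ, hh]⟩

theorem sat_powC {K : Type} [CommRing K] (O : Set K) (k a b : ℕ) (ha : a ≠ 4) (ha' : a ≠ 5)
    (hb : b ≠ 4) (hb' : b ≠ 5) (v : ℕ → K) : Sat O (powC k a b) v ↔ v a ^ k = v b := by
  have e1 : (4 : ℕ) ≠ 5 := by norm_num
  simp only [powC, Sat, sat_powF, update_self, update_of_ne e1, update_of_ne ha, update_of_ne ha',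
    update_of_ne hb, update_of_ne hb']
  constructor
  · rintro ⟨x, y, rfl, rfl, h⟩
    exact h
  · intro h
    exact ⟨_, _, rfl, rfl, h⟩

/-- `1 + x_9 x_5 ^ q` is a `q`-th power -/
def OTg (q : ℕ) : Fm :=
  .ex 7 (.and (.eq 7 5) (.ex 8 (.and (powC q 7 8) (.ex 3 (.and (.mul 9 8 3)
    (.ex 1 (.and (.one 1) (.ex 2 (.and (.add 1 3 2) (.ex 0 (powC q 0 2)))))))))))

theorem sat_OTg {K : Type} [CommRing K] (O : Set K) (q : ℕ) (v : ℕ → K) :
    Sat O (OTg q) v ↔ OT q (v 9) (v 5) := by
  unfold OTg OT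
  simp only [Sat, sat_powC O q 7 8 (by norm_num) (by norm_num) (by norm_num) (by norm_num),
    sat_powC O q 0 2 (by norm_num) (by norm_num) (by norm_num) (by norm_num)]
  constructor
  · rintro ⟨a, ha, b, hb, c, hc, d, hd, e, he, f, hf⟩
    simp [update_apply] at ha hb hc hd he hf
    subst ha hb hc hd he
    exact ⟨f, hf⟩
  · rintro ⟨y, hy⟩
    refine ⟨v 5, ?_, v 5 ^ q, ?_, v 9 * v 5 ^ q, ?_, 1, ?_, 1 + v 9 * v 5 ^ q, ?_, y, ?_⟩ <;>
      simp [update_apply]
    exact hy

/-- the formula for the part of the definable set in `x_2 O` whose elements are the only ones in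
their cosets of `x_1 O` -/
def psi (q : ℕ) (φ : Fm) : Fm :=
  .ex 4 (.and (.eq 4 0) (.and (ren sg φ) (.and (.ex 5 (.and (OTg q) (.mul 2 5 4)))
    (.neg (.ex 3 (.and (.ex 0 (.and (.eq 0 3) (ren sg φ)))
      (.and (.ex 5 (.and (OTg q) (.mul 2 5 3)))
        (.and (.ex 5 (.ex 6 (.and (OTg q) (.and (.mul 1 5 6) (.add 6 4 3)))))
          (.neg (.eq 3 4))))))))))

/-- the parameters -/
def par {K : Type*} (b c τ : K) (v : ℕ → K) (n : ℕ) : K :=
  if n = 1 then b else if n = 2 then c else if n = 9 then τ else v (n - 10)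

theorem key {K : Type*} [Add K] [Mul K] [One K] (O : Set K) (φ : Fm) (v u : ℕ → K)
    (hu : ∀ i, 1 ≤ i → u (i + 10) = v i) :
    Sat O (ren sg φ) u ↔ Sat O φ (update v 0 (u 0)) := by
  rw [sat_ren O sg_inj]
  have : u ∘ sg = update v 0 (u 0) := by
    funext i
    rcases Nat.eq_zero_or_pos i with h | h
    · subst h
      simp [sg]
    · have h0 : i ≠ 0 := by omega
      simp [sg, h0, hu i h]
  rw [this]

theorem sat_psi {K : Type} [CommRing K] (O : Set K) (q : ℕ) (φ : Fm) (v : ℕ → K)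
    (b c τ x : K) :
    Sat O (psi q φ) (update (par b c τ v) 0 x) ↔
      Sat O φ (update v 0 x) ∧ (∃ z, OT q τ z ∧ c * z = x) ∧
      ∀ y, Sat O φ (update v 0 y) → (∃ z, OT q τ z ∧ c * z = y) →
        (∃ z, OT q τ z ∧ b * z + x = y) → y = x := by
  have e : ∀ u : ℕ → K, (∀ i, 1 ≤ i → u (i + 10) = v i) →
    (Sat O (ren sg φ) u ↔ Sat O φ (update v 0 (u 0))) := key O φ v
  have hpar : ∀ i, 1 ≤ i → par b c τ v (i + 10) = v i := by
    intro i hi
    have h1 : i + 10 ≠ 1 := by omega
    have h2 : i + 10 ≠ 2 := by omega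
    have h9 : i + 10 ≠ 9 := by omega
    simp [par, h2, h9]
  unfold psi
  simp only [Sat, sat_OTg]
  constructor
  · rintro ⟨a, ha, h1, ⟨z, hz, h2⟩, h3⟩
    have hax : a = x := by simpa [update_apply] using ha
    subst hax
    rw [e _ (by
      intro i hi
      have h0 : i + 10 ≠ 0 := by omega
      have h4 : i + 10 ≠ 4 := by omega
      simp [update_apply, h4, hpar i hi])] at h1
    refine ⟨by simpa [update_apply] using h1, ⟨z, by simpa [update_apply, par] using hz,
      by simpa [update_apply, par] using h2⟩, fun y hy hcy hbx => ?_⟩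
    by_contra hne
    apply h3
    obtain ⟨z1, hz1, hz1'⟩ := hcy
    obtain ⟨z2, hz2, hz2'⟩ := hbx
    refine ⟨y, ⟨y, by simp [update_apply], ?_⟩, ⟨z1, by simpa [update_apply, par] using hz1,
      by simpa [update_apply, par] using hz1'⟩, ⟨z2, b * z2, by simpa [update_apply, par] using hz2,
      by simp [update_apply, par], by simpa [update_apply, par] using hz2'⟩,
      by simpa [update_apply] using hne⟩
    rw [e _ (by
      intro i hi
      have h0 : i + 10 ≠ 0 := by omega
      have h3 : i + 10 ≠ 3 := by omega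
      have h4 : i + 10 ≠ 4 := by omega
      simp [update_apply, h3, h4, hpar i hi])]
    simpa [update_apply] using hy
  · rintro ⟨h1, ⟨z, hz, h2⟩, h3⟩
    refine ⟨x, by simp [update_apply], ?_, ⟨z, by simpa [update_apply, par] using hz,
      by simpa [update_apply, par] using h2⟩, ?_⟩
    · rw [e _ (by
        intro i hi
        have h0 : i + 10 ≠ 0 := by omega
        have h4 : i + 10 ≠ 4 := by omega
        simp [update_apply, h4, hpar i hi])]
      simpa [update_apply] using h1
    · rintro ⟨y, ⟨y', hy', h4⟩, ⟨z1, hz1, h5⟩, ⟨z2, a2, hz2, h6, h7⟩, h8⟩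
      have hyy : y' = y := by simpa [update_apply] using hy'
      subst hyy
      rw [e _ (by
        intro i hi
        have h0 : i + 10 ≠ 0 := by omega
        have h3 : i + 10 ≠ 3 := by omega
        have h4 : i + 10 ≠ 4 := by omega
        simp [update_apply, h3, h4, hpar i hi])] at h4
      have h6' : b * z2 = a2 := by simpa [update_apply, par] using h6
      have h7' : a2 + x = y' := by simpa [update_apply, par] using h7
      have h8' : y' ≠ x := by simpa [update_apply, par] using h8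
      exact h8' (h3 y' (by simpa [update_apply] using h4)
        ⟨z1, by simpa [update_apply, par] using hz1, by simpa [update_apply, par] using h5⟩
        ⟨z2, by simpa [update_apply, par] using hz2, by rw [h6']; exact h7'⟩)

theorem t_DISC2 : Pool.Agent.Y924.UF.S_VAL → Pool.Agent.Y924.UF.S_REN →
    Pool.Agent.Y924.UF.S_DISC2 := by
  intro hVAL _ p _ P huni φ v hdis
  classical
  have hval := (hVAL p).1
  obtain ⟨N, hN⟩ := huni (psi (p + 1) φ)
  by_contra hinf
  obtain ⟨F, hFA, hFN⟩ := Set.Infinite.exists_subset_card_eq hinf (N + 1)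
  -- `b` and `c`
  choose! β hβ0 hβ using hdis
  obtain ⟨b, hbF, hb⟩ := Finset.exists_min_image (insert 1 (F.image β)) w ⟨1, by simp⟩
  obtain ⟨c, hcF, hc⟩ := Finset.exists_max_image (insert 1 F) w ⟨1, by simp⟩
  have hb0 : b ≠ 0 := by
    rcases Finset.mem_insert.1 hbF with h | h
    · rw [h]; exact one_ne_zero
    · obtain ⟨x, hx, rfl⟩ := Finset.mem_image.1 h
      exact hβ0 x (hFA hx)
  have hc0 : c ≠ 0 := by
    have h1 : w (1 : LaurentSeries (ZMod p)) ≤ w c := hc 1 (by simp)
    intro h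
    rw [h] at h1
    simp [w] at h1
  set A' := DefP P (psi (p + 1) φ) (par b c (HahnSeries.single (1 : ℤ) (1 : ZMod p)) v) with hA'
  have hmem : ∀ x, x ∈ A' ↔ x ∈ DefP P φ v ∧ w x ≤ w c ∧
      ∀ y, y ∈ DefP P φ v → w y ≤ w c → (∃ z, z ∈ OO p ∧ b * z + x = y) → y = x := by
    intro x
    have := sat_psi P (p + 1) φ v b c (HahnSeries.single (1 : ℤ) (1 : ZMod p)) x
    simp only [← hval, mem_mul_OO hc0] at this
    exact this
  have hbx : ∀ x y : LaurentSeries (ZMod p), (∃ z, z ∈ OO p ∧ b * z + x = y) ↔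
      w (y - x) ≤ w b := by
    intro x y
    rw [← mem_mul_OO hb0]
    constructor
    · rintro ⟨z, hz, h⟩
      exact ⟨z, hz, by rw [← h]; ring⟩
    · rintro ⟨z, hz, h⟩
      exact ⟨z, hz, by rw [h]; ring⟩
  have hfin : A'.Finite := by
    refine finite_of b c hb0 hc0 A' (fun x hx => ((hmem x).1 hx).2.1) ?_
    intro x hx y hy hxy
    exact ((hmem y).1 hy).2.2 x ((hmem x).1 hx).1 ((hmem x).1 hx).2.1 ((hbx y x).2 hxy)
  have hsub : (F : Set (LaurentSeries (ZMod p))) ⊆ A' := by
    intro x hx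
    rw [hmem]
    refine ⟨hFA hx, hc x (Finset.mem_insert_of_mem hx), fun y hy _ hyx => ?_⟩
    refine hβ x (hFA hx) y hy ?_
    have h1 : w (y - x) ≤ w (β x) := ((hbx x y).1 hyx).trans
      (hb _ (Finset.mem_insert_of_mem (Finset.mem_image_of_mem β hx)))
    obtain ⟨z, hz, h⟩ := (mem_mul_OO (hβ0 x (hFA hx)) (y - x)).2 h1
    exact ⟨z, hz, by rw [h]; ring⟩
  have h1 : A'.ncard ≤ N := hN _ hfin
  have h2 : F.card ≤ A'.ncard := by
    rw [← Set.ncard_coe_finset]
    exact Set.ncard_le_ncard hsub hfin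
  omega

end Pool.Agent.Y410.UF
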